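import Pool.Agent.MP_6a4325_al.H84.Spec3

/-! Weight vectors. -/

set_option autoImplicit false

namespace Pool.Agent.MP_6a4325_al.H37

open Pool.Agent.MP_6a4325_al.H62 Pool.Agent.MP_6a4325_al.H84

theorem wt_aux {k L ι M T : Type} [Field k] [Group L] [AddCommGroup M] [Module k M]
    [AddCommGroup T] [Module k T] (A : Subgroup L) (ρ : Representation k L M)
    (σ : Representation k L T) (ψ : M) (t : T) (w : ι → M) (c : ι → L → k)
    (hw : ∀ e, ∀ a ∈ A, ρ a (w e) = c e a • w e)
    (h : ∀ x, ρ.asAlgebraHom x ψ = 0 → σ.asAlgebraHom x t = 0) (S : Finset ι) :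
    ∀ (r : ι → k) (x : MonoidAlgebra k L), ρ.asAlgebraHom x ψ = ∑ e ∈ S, r e • w e →
      σ.asAlgebraHom x t ≠ 0 → ∃ (e : ι) (u : T), u ≠ 0 ∧ ∀ a ∈ A, σ a u = c e a • u := by
  classical
  induction S using Finset.induction_on with
  | empty => exact fun r x h1 h2 => absurd (h x h1) h2
  | insert e S he ih =>
    intro r x h1 h2
    by_cases h3 : ∀ a ∈ A, σ a (σ.asAlgebraHom x t) = c e a • σ.asAlgebraHom x t
    · exact ⟨e, _, h2, h3⟩
    push Not at h3
    obtain ⟨a, ha, h3⟩ := h3
    refine ih (fun i => r i * (c i a - c e a)) (MonoidAlgebra.single a 1 * x - c e a • x) ?_ ?_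
    · rw [map_sub, map_mul, map_smul, Representation.asAlgebraHom_single_one,
        LinearMap.sub_apply, Module.End.mul_apply, LinearMap.smul_apply, h1, map_sum,
        Finset.smul_sum, ← Finset.sum_sub_distrib]
      simp only [map_smul, hw _ a ha, smul_smul, ← sub_smul]
      rw [Finset.sum_insert he, mul_comm, sub_self, zero_smul, zero_add]
      exact Finset.sum_congr rfl fun i _ => by rw [mul_sub, mul_comm (c e a)]
    · simpa [sub_eq_zero] using h3

theorem wt : SFun → SWt := by
  classical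
  intro hF k L _ _ _ E A D hE hb hA _ hT χ hχ
  have := Fintype.ofFinite E
  let χ₀ : L → k := fun g => if g ∈ A then χ g else 0
  have h0 : ∀ a ∈ A, reg k L a χ₀ = χ a • χ₀ := fun a ha => funext fun g => by
    simp only [reg_apply, χ₀, A.mul_mem_cancel_right ha, Pi.smul_apply, smul_eq_mul]
    split_ifs with hg
    · rw [hχ.2 g hg a ha, mul_comm]
    · rw [mul_zero]
  let ψ : L → k := ∑ e : E, reg k L e χ₀
  have h1 : ψ 1 = 1 := by
    simp only [ψ, Finset.sum_apply, reg_apply, one_mul]
    exact (Finset.sum_eq_single (1 : E) (fun e _ he => if_neg fun h => he (Subtype.ext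
      (hT _ h (E.subtype.isOfFinOrder (isOfFinOrder_of_finite e))))) (by simp)).trans
        ((if_pos A.one_mem).trans hχ.1)
  obtain ⟨T, _, _, σ, t, hσ, ht, h⟩ := hF k L k ψ ⟨1, h1 ▸ one_ne_zero⟩
  have h2 : ∀ x, (reg k L).asAlgebraHom x ψ = 0 → σ.asAlgebraHom x t = 0 := fun x hx =>
    h x fun g => by
      have := congrFun hx g
      rw [Representation.asAlgebraHom_def, MonoidAlgebra.lift_apply] at this
      simpa [Finsupp.sum, reg_apply] using this
  obtain ⟨h3, h4⟩ := hb T σ hσ t ht fun e he => by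
    have := h2 (MonoidAlgebra.single e 1 - 1) (by
      rw [map_sub, map_one, Representation.asAlgebraHom_single_one, LinearMap.sub_apply,
        Module.End.one_apply, sub_eq_zero, map_sum]
      simp only [← Module.End.mul_apply, ← map_mul]
      exact Equiv.sum_comp (Equiv.mulLeft (⟨e, he⟩ : E)) fun e' : E => reg k L e' χ₀)
    simpa [sub_eq_zero] using this
  obtain ⟨e, u, hu, h5⟩ := wt_aux A (reg k L) σ ψ t (fun e : E => reg k L e χ₀)
    (fun e a => χ ((e : L)⁻¹ * a * e)) (fun e a ha => by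
      rw [← map_smul, ← h0 _ (hA.conj_mem' a ha e), ← Module.End.mul_apply,
        ← Module.End.mul_apply, ← map_mul, ← map_mul]
      simp [mul_assoc]) h2 Finset.univ (fun _ => 1) 1 (by simp [ψ]) (by simpa using ht)
  refine ⟨T, _, _, σ, σ (e : L)⁻¹ u, h3, h4, fun h6 => hu ?_, fun a ha => ?_⟩
  · simpa [← Module.End.mul_apply, ← map_mul] using congrArg (σ e) h6
  · have := congrArg (σ (e : L)⁻¹) (h5 _ (hA.conj_mem a ha e))
    simpa [← Module.End.mul_apply, ← map_mul, mul_assoc] using this

end Pool.Agent.MP_6a4325_al.H37
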